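import Pool.Agent.Q212.BL.Refute

/-!
# The Lipschitz Baumgartner axiom for Cantor space fails in ZFC

`Dense1 A` says that `A` meets every nonempty open set in exactly `ℵ₁` points. `BALip Bool` is the
Lipschitz Baumgartner axiom for the Cantor space `ℕ → Bool`: for all `A`, `B` with `Dense1 A` and
`Dense1 B` there is a `1`-Lipschitz map of the space into itself which is injective on `A` and maps
`A` into `B`. The axiom is refuted without any hypothesis, so that Martin's axiom with the negation
of the continuum hypothesis does not imply it. The two further clauses say that Lipschitz (and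
Hölder) maps with arbitrary constants and maps with any prescribed modulus of continuity do not
suffice either.

Proof. Let `x ξ`, `ξ < ω₁`, be distinct elements of the Cantor space. Let `a ξ` be `x ξ` written on
a sparse set of positions, and let `b η` code all `x ξ` with `ξ ≤ η` in the usual dense way. Let
`A`, `B` be the sets of all finite modifications of the `a ξ`, of the `b η`. An injection `A → B`
sends `a ξ` to a finite modification of some `b (η ξ)`; since `η` has countable fibres, `ξ ≤ η ξ`
for uncountably many `ξ`. Two such `ξ`, `ξ'` have the same data (place of `ξ` in the enumeration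
below `η ξ`, size of the modification, and a sufficiently long beginning of `x ξ`). At the first
difference `j` of `x ξ` and `x ξ'` the sequences `a ξ`, `a ξ'` agree up to the `j`-th sparse
position, but their images differ much earlier.
-/

set_option autoImplicit false

open Cardinal Set

namespace Pool.Agent.Results.MP_93aff1_lc.LipschitzBaumgartnerFails

open Pool.Agent.Q212.BL

theorem result :
    ¬ BALip Bool ∧
    (∃ A B : Set (ℕ → Bool), Dense1 A ∧ Dense1 B ∧ ∀ f : A → B, Function.Injective f →
      ∀ c d : ℕ, ¬ ∀ (k : ℕ) (x y : A), (∀ i < c * k + d, x.1 i = y.1 i) →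
        ∀ i < k, (f x).1 i = (f y).1 i) ∧
    ∀ m : ℕ → ℕ, ∃ A B : Set (ℕ → Bool), Dense1 A ∧ Dense1 B ∧ ∀ f : A → B,
      Function.Injective f → ¬ EvMod m f := by
  refine ⟨not_BALip id Function.injective_id, ?_,
    fun m => exists_pair id Function.injective_id m⟩
  obtain ⟨A, B, hA, hB, h⟩ := exists_pair (α := Bool) id Function.injective_id fun k => k ^ 2
  refine ⟨A, B, hA, hB, fun f hf c d hcd => h f hf ⟨c + d, fun k hk x y hxy i hi => ?_⟩⟩
  refine hcd k x y (fun l hl => hxy l (lt_of_lt_of_le hl ?_)) i hi
  rcases Nat.eq_zero_or_pos k with h0 | h0
  · omega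
  · nlinarith [Nat.zero_le c, Nat.zero_le d]

end Pool.Agent.Results.MP_93aff1_lc.LipschitzBaumgartnerFails
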